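import Pool.Agent.Helper10.Fam.Stmts

set_option autoImplicit false

/-!
# TREE: soundness of the subdivision tree (project MP_8410ab_nt)
-/

namespace Pool.Agent.Helper10.Fam

theorem tree_getAt_mem : ∀ (L : List Vr) (i : ℕ) (a : Vr), getAt L i = some a → a ∈ L
  | [], i, a, h => by simp [getAt] at h
  | b :: s, 0, a, h => by
    simp only [getAt, Option.some.injEq] at h
    simp [h]
  | b :: s, i + 1, a, h => by
    simp only [getAt] at h
    exact List.mem_cons_of_mem _ (tree_getAt_mem s i a h)

theorem tree_setAt_mem : ∀ (L : List Vr) (i : ℕ) (P v : Vr), v ∈ setAt L i P → v = P ∨ v ∈ L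
  | [], i, P, v, h => by simp [setAt] at h
  | b :: s, 0, P, v, h => by
    simp only [setAt, List.mem_cons] at h
    rcases h with h | h
    · exact Or.inl h
    · exact Or.inr (List.mem_cons_of_mem _ h)
  | b :: s, i + 1, P, v, h => by
    simp only [setAt, List.mem_cons] at h
    rcases h with h | h
    · exact Or.inr (by simp [h])
    · rcases tree_setAt_mem s i P v h with h' | h'
      · exact Or.inl h'
      · exact Or.inr (List.mem_cons_of_mem _ h')

/-- the module TREE -/
theorem st_TREE (hE : ST_EXCH) (hB : ST_LSTB) : ST_TREE := by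
  intro α P T ok tr
  induction tr with
  | leaf k =>
    intro L Q _ hL hleaf hchk x hx
    simp only [chkTr] at hchk
    exact hleaf k L hL hchk x hx
  | bis i j al be k l r ihl ihr =>
    intro L Q hT hL hleaf hchk x hx
    simp only [chkTr] at hchk
    split at hchk
    · rename_i V a b hV ha hb
      simp only [Bool.and_eq_true, Bool.not_eq_true'] at hchk
      obtain ⟨⟨⟨⟨⟨h1, h2⟩, h3⟩, h4⟩, h5⟩, h6⟩ := hchk
      have hij : i ≠ j := fun h => by
        rw [h] at h3
        simp at h3
      have hc := (hB.comb al be V.v a.v b.v h4).2.2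
      have hset : ∀ i', ∀ v ∈ setAt L i' V, P v := by
        intro i' v hv
        rcases tree_setAt_mem L i' V v hv with h | h
        · rw [h]
          exact hT k V hV
        · exact hL v h
      rcases hE L i j al be a b V x hx hij ha hb (Nat.le_of_ble_eq_true h1)
        (Nat.le_of_ble_eq_true h2) hc with h | h
      · exact ihl (setAt L i V) Q hT (hset i) hleaf h5 x h
      · exact ihr (setAt L j V) Q hT (hset j) hleaf h6 x h
    · exact absurd hchk (by simp)

end Pool.Agent.Helper10.Fam
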